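import Pool.Agent.Helper77.PPB.Goals
import Pool.Agent.Helper86.PPO.OTRV
import Pool.Agent.Helper48.PPO.OSUB
import Pool.Agent.Helper9.RL.TRV
import Pool.Agent.Helper95.RL.SUB

/-!
# Project PPB (MP_fc6b1e_nt), packet PPB-B_TRV: the abstract lifting of the twisted Selmer group
-/

namespace Pool.Agent.Helper59.PPB

open NumberField Polynomial Module IsDedekindDomain Pool.Agent.Helper51.SigLeo
open Pool.Agent.Helper51.RP Pool.Agent.Helper77.PPB
open Pool.Agent.Helper77.RL (Sqr LData SplitAt up act_map act_lift lift)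
open Pool.Agent.Helper40.RD (bel_of_above ordW)
open Pool.Agent.Helper49.RL (tame_desc val_eq)
open Pool.Agent.Helper90.RP (exists_pull loc_pow loc_one loc_inv loc_mul loc_delta)
open Pool.Agent.Helper48.PPO (locAt_mul locAt_pow locAt_one locAt_inv)
open Pool.Agent.Helper9.RL (rs_pow pol_rs eq_of_agree ext_pow comm_rs above_above)

/-- The prime `f⁻¹ w` for a ring automorphism `f`. -/
theorem exists_pull_ring {M : Type} [Field M] [NumberField M] (f : M ≃+* M)
    (w : HeightOneSpectrum (𝓞 M)) :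
    ∃ w' : HeightOneSpectrum (𝓞 M), ∀ y : M, w.valuation M (f y) = w'.valuation M y := by
  let f' : M ≃ₐ[ℚ] M := AlgEquiv.ofRingEquiv (f := f) (fun r => by
    rw [eq_ratCast, map_ratCast])
  obtain ⟨w', -, h⟩ := exists_pull (K := ℚ) f' w
  exact ⟨w', h⟩

/-- Transport of the local conditions. -/
theorem locAt_ring {p : ℕ} (hp : p ≠ 0) {M : Type} [Field M] [NumberField M]
    {v w : HeightOneSpectrum (𝓞 M)} (f : M ≃+* M)
    (hw : ∀ y : M, v.valuation M (f y) = w.valuation M y) {a c x : M} (ha0 : a ≠ 0)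
    (ha : f a = a * c ^ p) (hx : LocAt p w a x) : LocAt p v a (f x) := by
  have e : ∀ y : M, ordv v (f y) = ordv w y := by
    intro y
    unfold ordv
    rw [hw]
  have hc0 : c ≠ 0 := by
    rintro rfl
    rw [zero_pow hp, mul_zero] at ha
    exact ha0 ((map_eq_zero_iff f f.injective).1 ha)
  have ea : ordv w a = ordv v a + p * ordv v c := by
    rw [← e a, ha, Pool.Agent.Helper49.RL.ordv_mul v ha0 (pow_ne_zero _ hc0),
      Pool.Agent.Helper49.RL.ordv_pow]
  have hiff : (p : ℤ) ∣ ordv w a ↔ (p : ℤ) ∣ ordv v a := by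
    rw [ea]
    exact dvd_add_left (dvd_mul_right _ _)
  refine ⟨fun h => ?_, fun h => ?_⟩
  · rw [e]
    exact hx.1 (hiff.2 h)
  · obtain ⟨i, y, hy⟩ := hx.2 (fun h2 => h (hiff.1 h2))
    refine ⟨i, c ^ i * f y, ?_⟩
    have e2 : f x * ((-1) ^ (p - 1) * a) ^ i * (c ^ i * f y) ^ p - 1 =
        f (x * ((-1) ^ (p - 1) * a) ^ i * y ^ p - 1) := by
      simp only [map_sub, map_mul, map_pow, map_one, map_neg, ha]
      ring
    rw [e2, hw]
    exact hy

section main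

variable {p : ℕ} {k : Type} [NormedField k] [IsUltrametricDist k] (Lg : IwasawaLog p k)
  {K M M' M₂' : Type} [Field K] [Field M] [Field M'] [Field M₂'] [NumberField M₂'] [Algebra K M']
  [Algebra M M'] [Algebra M' M₂']

/-- The Selmer group over `M'`. -/
theorem sub_exists (hp : 0 < p) (δ₁ : M' ≃ₐ[K] M')
    (hcomm : ∀ (g : M' ≃ₐ[M] M') (y : M'), g (δ₁ y) = δ₁ (g y))
    (P : (ZMod p)[X]) (T₁ : Set (M →+* k)) (β : M₂') (hβ : β ≠ 0)
    (hst : ∀ g : M' ≃ₐ[M] M', ∃ (f : M₂' ≃+* M₂') (c : M₂'),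
      (∀ x : M', f (algebraMap M' M₂' x) = algebraMap M' M₂' (g x)) ∧ f β = β * c ^ p) :
    ∃ V : Subgroup M'ˣ, (∀ x, x ∈ V ↔ Sel Lg (above T₁ : Set (M' →+* k)) P δ₁ β x) ∧
      (∀ x, Pw p x → x ∈ V) ∧
      ∀ (g : M' ≃ₐ[M] M'), ∀ x ∈ V, Units.map ((g : M' →+* M') : M' →* M') x ∈ V := by
  refine ⟨{ carrier := {x | Sel Lg (above T₁ : Set (M' →+* k)) P δ₁ β x}
            one_mem' := ?_
            mul_mem' := ?_
            inv_mem' := ?_ }, fun x ↦ Iff.rfl, ?_, ?_⟩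
  · rintro x y ⟨hx0, hx1, hx2⟩ ⟨hy0, hy1, hy2⟩
    refine ⟨?_, fun W => ?_, loc_mul Lg hx2 hy2⟩
    · obtain ⟨a, ha⟩ := hx0
      obtain ⟨b, hb⟩ := hy0
      exact ⟨a * b, by rw [map_mul, ha, hb, mul_pow]⟩
    · have h := locAt_mul (x := Units.map (algebraMap M' M₂' : M' →* M₂') x)
        (y := Units.map (algebraMap M' M₂' : M' →* M₂') y) (hx1 W) (hy1 W)
      rw [← map_mul] at h
      exact h
  · refine ⟨⟨1, by rw [map_one, one_pow]⟩, fun W => ?_, loc_one Lg⟩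
    have h := locAt_one (p := p) (v := W) (a := β)
    simpa using h
  · rintro x ⟨hx0, hx1, hx2⟩
    refine ⟨?_, fun W => ?_, loc_inv Lg hx2⟩
    · obtain ⟨a, ha⟩ := hx0
      exact ⟨a⁻¹, by rw [map_inv, ha, inv_pow]⟩
    · have h := locAt_inv hp hβ (x := Units.map (algebraMap M' M₂' : M' →* M₂') x) (hx1 W)
      rw [← map_inv] at h
      exact h
  · rintro x ⟨y, rfl⟩
    refine ⟨⟨pol P δ₁ y, by rw [map_pow]⟩, fun W => ?_, loc_pow Lg y⟩
    have h := locAt_pow (p := p) (v := W) (a := β)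
      (Units.map (algebraMap M' M₂' : M' →* M₂') y)
    rw [← map_pow] at h
    exact h
  · rintro g x ⟨hx0, hx1, hx2⟩
    refine ⟨?_, fun W => ?_, loc_delta Lg g hx2⟩
    · obtain ⟨a, ha⟩ := hx0
      refine ⟨Units.map ((g : M' →+* M') : M' →* M') a, ?_⟩
      have h1 := act_map (g : M' →+* M') δ₁ δ₁ (fun x ↦ hcomm g x) (lift P) x
      rw [act_lift, act_lift] at h1
      rw [← h1, ha, map_pow]
    · obtain ⟨f, c, hf1, hf2⟩ := hst g
      obtain ⟨W', hW'⟩ := exists_pull_ring f W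
      have h := locAt_ring hp.ne' f hW' hβ hf2 (hx1 W')
      rw [hf1] at h
      exact h

end main

/-- **B_TRV** -/
theorem b_trv : Pool.Agent.Helper77.PPB.B_TRV := by
  intro p hp k _ _ _ hne Lg n m K M L M' M₂ M₂' _ _ _ _ _ _ _ _ _ _ _ _ _ _ _ _ _ _ _ _ _ _ _ _ _
    hS δ δL P hirr hpow hext hTor hnsp T hsplit α hα hst hC hM x hx
  by_contra hxp
  have hpp : p.Prime := hp.out
  have : FiniteDimensional K M' := Module.Finite.of_restrictScalars_finite ℚ K M'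
  have : FiniteDimensional M M' := Module.Finite.of_restrictScalars_finite ℚ M M'
  obtain ⟨hd1, hd2, hg1, hg2, hf⟩ := Pool.Agent.Helper30.RL.l_sqr p n K M L M' hS
  have := hg1
  set δ₁ : M' ≃ₐ[K] M' := AlgEquiv.restrictScalars K δL with hδ₁
  have hp1 : δ₁ ^ m = 1 := by
    refine hS.gen _ (fun x ↦ ?_) fun y ↦ ?_
    · rw [rs_pow, ext_pow δ δL hext, hpow]
      rfl
    · rw [rs_pow]
      exact AlgEquiv.commutes _ _
  have hLD : LData p m n δ δ₁ :=
    ⟨hg1, hd1, hext, hp1, fun g y => comm_rs hS δ δL hext g y⟩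
  have hTor' : TorOK P δ₁ := hTor
  have hα' : algebraMap M₂ M₂' α ≠ 0 := by
    intro h
    exact hα ((map_eq_zero_iff _ (algebraMap M₂ M₂').injective).1 h)
  obtain ⟨V, hV, hVp, hVg⟩ := sub_exists Lg (K := K) hpp.pos δ₁ hLD.comm P
    (above T : Set (M →+* k)) (algebraMap M₂ M₂' α) hα' hst
  have hxV : x ∈ V := by
    rw [hV]
    refine ⟨?_, hx.loc, ?_⟩
    · rw [pol_rs]
      exact hx.pol
    · rw [← above_above (L := L)]
      exact hx.sig
  obtain ⟨x', hx'V, hx'p, hx'g⟩ :=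
    Pool.Agent.Helper48.RL.l_fix p M M' n hd1 V hVp hVg ⟨x, hxV, hxp⟩
  obtain ⟨x₀, hx₀, hxx₀⟩ := Pool.Agent.Helper93.RL.l_des Pool.Agent.Helper11.RL.l_pol p K M M' m n
    δ δ₁ P hirr hLD hTor' x' ((hV x').1 hx'V).pol hx'g
  have hup : up x₀ ∈ V := by
    have h6 := V.div_mem hx'V (hVp _ hxx₀)
    rwa [div_div_cancel] at h6
  have hupS := (hV _).1 hup
  have hx₀0 : (x₀ : M) ≠ 0 := x₀.ne_zero
  have hcomm : algebraMap M' M₂' ((up x₀ : M'ˣ) : M') =
      algebraMap M₂ M₂' (algebraMap M M₂ (x₀ : M)) := by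
    change algebraMap M' M₂' (algebraMap M M' (x₀ : M)) = _
    rw [← IsScalarTower.algebraMap_apply M M' M₂', ← IsScalarTower.algebraMap_apply M M₂ M₂']
  have hsig : LocSig Lg (above T : Set (M →+* k)) x₀ := by
    refine Pool.Agent.Helper86.PPO.l_lsd p k hne Lg K M M' (AlgebraicClosure M') m n δ δ₁ P hirr
      hLD T (fun σ hσ => Or.inl fun τ' hτ' => hsplit τ' ?_) x₀ hx₀ hupS.sig
    rw [hτ']
    exact hσ
  have hSel : Sel Lg (above T : Set (M →+* k)) P δ α x₀ := by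
    refine ⟨hx₀, fun W => ⟨fun hW => ?_, fun hW => ?_⟩, hsig⟩
    · rcases hC.dvd W hW with ⟨W', -, hord⟩ | ⟨w, hw, hfree⟩
      · have h1 := (hupS.loc W').1 (by rw [hord]; exact hW)
        rw [hcomm, hord] at h1
        exact h1
      · have h1 := hnsp w hfree x₀ hx₀
        rw [ordW W, bel_of_above hw]
        exact Dvd.dvd.mul_left h1 _
    · obtain ⟨W', -, hord, hres⟩ := hC.tame W hW
      obtain ⟨i, hi⟩ := (hupS.loc W').2 (by rw [hord]; exact hW)
      refine ⟨i, tame_desc p W' W (val_eq W' W hord) hres _ hpp.ne_zero ?_⟩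
      rw [hcomm] at hi
      rw [map_mul, map_pow, map_mul, map_pow, map_neg, map_one]
      exact hi
  obtain ⟨y, hy⟩ := hM x₀ hSel
  apply hx'p
  obtain ⟨w, hw⟩ := hxx₀
  refine ⟨w * up y, ?_⟩
  have h6 : up x₀ = (up y : M'ˣ) ^ p := by
    rw [hy]
    unfold up
    rw [map_pow]
  rw [mul_pow, ← h6, ← hw, div_mul_cancel]

end Pool.Agent.Helper59.PPB
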